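import Pool.Agent.Y476.RM.Stm

set_option autoImplicit false

namespace Pool.Agent.Y239.HM

open MeasureTheory Filter Topology Pool.Agent.Y476.RM
open scoped ENNReal

theorem TD.mono {G : Type} [TopologicalSpace G] [Add G] [MeasurableSpace G] {θ : Measure G} {s : G}
    {ε ε' : ℝ} (h : TD θ s ε) (hε : ε ≤ ε') : TD θ s ε' := fun φ hφ => (h φ hφ).trans hε

section

variable {G : Type} [NormedAddCommGroup G] [CompactSpace G] [MeasurableSpace G] [BorelSpace G]

/-- a continuous function between a closed and an open set has integral close to the measure -/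
theorem approx {θ : Measure G} [IsFiniteMeasure θ] {K U E : Set G} (hK : MeasurableSet K)
    (hU : MeasurableSet U) (hE : MeasurableSet E) (hKE : K ⊆ E) (hEU : E ⊆ U) {δ : ℝ}
    (h1 : θ.real (E \ K) ≤ δ) (h2 : θ.real (U \ E) ≤ δ) (φ : C(G, ℝ)) (hφ0 : ∀ x, 0 ≤ φ x)
    (hφ1 : ∀ x, φ x ≤ 1) (hφK : ∀ x ∈ K, φ x = 1) (hφU : ∀ x ∉ U, φ x = 0) :
    |∫ x, φ x ∂θ - θ.real E| ≤ δ := by
  have hint : Integrable (fun x => φ x) θ := by
    refine Integrable.of_bound (C := 1) φ.continuous.aestronglyMeasurable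
      (Eventually.of_forall fun x => ?_)
    rw [Real.norm_eq_abs, abs_of_nonneg (hφ0 x)]; exact hφ1 x
  have e1 : θ.real K ≤ ∫ x, φ x ∂θ := by
    rw [← integral_indicator_one hK]
    refine integral_mono_of_nonneg (Eventually.of_forall fun x => ?_) hint
      (Eventually.of_forall fun x => ?_)
    · exact Set.indicator_nonneg (fun _ _ => zero_le_one) x
    · by_cases hx : x ∈ K
      · simp [Set.indicator_of_mem hx, hφK x hx]
      · simp [Set.indicator_of_notMem hx, hφ0 x]
  have e2 : ∫ x, φ x ∂θ ≤ θ.real U := by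
    rw [← integral_indicator_one hU]
    refine integral_mono_of_nonneg (Eventually.of_forall hφ0)
      ((integrable_const (1:ℝ)).indicator hU) (Eventually.of_forall fun x => ?_)
    by_cases hx : x ∈ U
    · simp [Set.indicator_of_mem hx, hφ1 x]
    · simp [Set.indicator_of_notMem hx, hφU x hx]
  have e3 : θ.real E = θ.real K + θ.real (E \ K) := by
    rw [measureReal_diff hKE hK]; ring
  have e4 : θ.real U = θ.real E + θ.real (U \ E) := by
    rw [measureReal_diff hEU hE]; ring
  rw [abs_le]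
  constructor <;> linarith

/-- the test for measurable sets -/
theorem td_set {θ : Measure G} [IsFiniteMeasure θ] {s : G} {ε : ℝ} (h : TD θ s ε) {E : Set G}
    (hE : MeasurableSet E) : |θ.real {x | x + s ∈ E} - θ.real E| ≤ ε := by
  have hmeas : Measurable (fun x : G => x + s) := (continuous_add_const s).measurable
  set θ' : Measure G := θ.map (fun x => x + s) with hθ'
  haveI : IsFiniteMeasure θ' := Measure.isFiniteMeasure_map θ _
  have hE' : θ'.real E = θ.real {x | x + s ∈ E} := by
    rw [measureReal_def, hθ', Measure.map_apply hmeas hE]; rfl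
  rw [← hE']
  refine le_of_forall_pos_le_add fun δ₀ hδ₀ => ?_
  set δ : ℝ := δ₀ / 2 with hδ
  have hδpos : 0 < δ := by positivity
  have hμE : (θ + θ') E ≠ ∞ := measure_ne_top _ _
  have hδ' : ENNReal.ofReal δ ≠ 0 := by simpa using hδpos
  obtain ⟨K, hKE, hK, hKd⟩ := hE.exists_isClosed_diff_lt hμE hδ'
  obtain ⟨U, hEU, hU, _, hUd⟩ := hE.exists_isOpen_diff_lt hμE hδ'
  obtain ⟨φ, hφU, hφK, hφ⟩ := exists_continuous_zero_one_of_isClosed hU.isClosed_compl hK
    (Set.disjoint_left.2 fun x hx hx' => hx (hEU (hKE hx')))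
  have bnd : ∀ {μ : Measure G} [IsFiniteMeasure μ] {B : Set G}, μ ≤ θ + θ' →
      (θ + θ') B < ENNReal.ofReal δ → μ.real B ≤ δ := by
    intro μ _ B hμ hB
    rw [measureReal_def]
    exact ENNReal.toReal_le_of_le_ofReal hδpos.le ((hμ B).trans hB.le)
  have hle1 : θ ≤ θ + θ' := Measure.le_add_right le_rfl
  have hle2 : θ' ≤ θ + θ' := Measure.le_add_left le_rfl
  have a1 := approx (θ := θ) hK.measurableSet hU.measurableSet hE hKE hEU (bnd hle1 hKd)
    (bnd hle1 hUd) φ (fun x => (hφ x).1) (fun x => (hφ x).2) (fun x hx => hφK hx)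
    (fun x hx => hφU hx)
  have a2 := approx (θ := θ') hK.measurableSet hU.measurableSet hE hKE hEU (bnd hle2 hKd)
    (bnd hle2 hUd) φ (fun x => (hφ x).1) (fun x => (hφ x).2) (fun x hx => hφK hx)
    (fun x hx => hφU hx)
  have a3 := h φ (fun x => by rw [abs_of_nonneg (hφ x).1]; exact (hφ x).2)
  have a4 : ∫ x, φ x ∂θ' = ∫ x, φ (x + s) ∂θ := by
    rw [hθ', integral_map hmeas.aemeasurable φ.continuous.aestronglyMeasurable]
  rw [a4] at a2
  rw [abs_le] at a1 a2 a3 ⊢
  constructor <;> linarith [a1.1, a1.2, a2.1, a2.2, a3.1, a3.2]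

end

/-- rigidity of products -/
theorem td_prod {ν ν' : Measure TT} [IsFiniteMeasure ν] [IsFiniteMeasure ν'] {t : TT} {ε : ℝ}
    (h : TD ν t ε) : TD (ν.prod ν') ((t, 0) : TT × TT) (ε * ν'.real Set.univ) := by
  intro φ hφ
  have hb : ∀ f : TT × TT → ℝ, Continuous f → (∀ p, |f p| ≤ 1) → Integrable f (ν.prod ν') := by
    intro f hf hf1
    exact Integrable.of_bound (C := 1) hf.aestronglyMeasurable
      (Eventually.of_forall fun p => by rw [Real.norm_eq_abs]; exact hf1 p)
  have hc1 : Continuous fun p : TT × TT => φ (p + (t, 0)) :=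
    φ.continuous.comp (continuous_add_const _)
  have i1 := hb _ hc1 (fun p => hφ _)
  have i2 := hb _ φ.continuous hφ
  have i3 : Integrable (fun p : TT × TT => φ (p + (t, 0)) - φ p) (ν.prod ν') := i1.sub i2
  rw [← integral_sub i1 i2, integral_prod_symm _ i3]
  have hin : ∀ z : TT, |∫ x, (φ ((x, z) + (t, 0)) - φ (x, z)) ∂ν| ≤ ε := by
    intro z
    have hcz : Continuous fun x : TT => φ (x, z) := φ.continuous.comp (by fun_prop)
    have hcz' : Continuous fun x : TT => φ (x + t, z) := φ.continuous.comp (by fun_prop)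
    have h1 := h ⟨fun x => φ (x, z), hcz⟩ (fun x => hφ _)
    have h2 : ∫ x, (φ ((x, z) + (t, 0)) - φ (x, z)) ∂ν =
        ∫ x, φ (x + t, z) ∂ν - ∫ x, φ (x, z) ∂ν := by
      have e : ∀ x : TT, ((x, z) + (t, 0) : TT × TT) = (x + t, z) := by
        intro x; ext <;> simp
      simp only [e]
      refine integral_sub ?_ ?_
      · exact Integrable.of_bound (C := 1) hcz'.aestronglyMeasurable
          (Eventually.of_forall fun p => by rw [Real.norm_eq_abs]; exact hφ _)
      · exact Integrable.of_bound (C := 1) hcz.aestronglyMeasurable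
          (Eventually.of_forall fun p => by rw [Real.norm_eq_abs]; exact hφ _)
    rw [h2]; exact h1
  have := norm_integral_le_of_norm_le_const (μ := ν') (C := ε)
    (f := fun z => ∫ x, (φ ((x, z) + (t, 0)) - φ (x, z)) ∂ν)
    (Eventually.of_forall fun z => by rw [Real.norm_eq_abs]; exact hin z)
  rw [Real.norm_eq_abs] at this
  exact this

theorem t (hR : S_R1) : S_F4 := by
  intro ν ν' _ _ A hA hne
  by_contra hcon
  push Not at hcon
  have hpos : ∀ n : ℕ, (0:ℝ) < 1 / ((n:ℝ) + 1) := fun n => by positivity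
  choose t ht1 ht2 ht3 using fun n : ℕ => hcon (1 / ((n:ℝ) + 1)) (1 / ((n:ℝ) + 1)) (hpos n) (hpos n)
  have hlim : Tendsto (fun n : ℕ => 1 / ((n:ℝ) + 1)) atTop (𝓝 0) :=
    tendsto_one_div_add_atTop_nhds_zero_nat
  set s : ℕ → TT × TT := fun n => (t n, 0) with hs
  have hs0 : Tendsto s atTop (𝓝 0) := by
    have h1 : Tendsto t atTop (𝓝 0) :=
      squeeze_zero_norm (fun n => (ht1 n).le) hlim
    exact h1.prodMk_nhds tendsto_const_nhds
  have hrig : Rig atTop s (ν.prod ν') := by
    intro ε hε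
    have hM : 0 < ν'.real Set.univ + 1 := by positivity
    have hev : ∀ᶠ n : ℕ in atTop, 1 / ((n:ℝ) + 1) < ε / (ν'.real Set.univ + 1) :=
      hlim.eventually (gt_mem_nhds (by positivity))
    filter_upwards [hev] with n hn
    refine TD.mono (td_prod (ht2 n)) ?_
    have h1 : 1 / ((n:ℝ) + 1) * ν'.real Set.univ ≤
        ε / (ν'.real Set.univ + 1) * (ν'.real Set.univ + 1) :=
      mul_le_mul hn.le (by linarith) (by positivity) (by positivity)
    rwa [div_mul_cancel₀ _ hM.ne'] at h1
  set S : Set (TT × TT) := {p | -p.1 - p.2 ∈ A} with hS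
  have hSm : MeasurableSet S := by
    have hc : Continuous fun p : TT × TT => -p.1 - p.2 := by fun_prop
    exact hc.measurable hA
  set ρ : Measure (TT × TT) := (ν.prod ν').restrict S with hρ
  have hρrig : Rig atTop s ρ := hR (TT × TT) ℕ atTop s (ν.prod ν') ρ hrig hs0
    (Measure.absolutelyContinuous_of_le Measure.restrict_le_self)
  have hzero : ∀ n, ρ.real {p | p + s n ∈ S} = 0 := by
    intro n
    have hm : MeasurableSet {p : TT × TT | p + s n ∈ S} :=
      (continuous_add_const (s n)).measurable hSm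
    rw [measureReal_def, hρ, Measure.restrict_apply hm]
    have : {p : TT × TT | p + s n ∈ S} ∩ S = ∅ := by
      rw [Set.eq_empty_iff_forall_notMem]
      rintro p ⟨h1, h2⟩
      have h1' : -(p.1 + t n) - (p.2 + 0) ∈ A := h1
      have h2' : -p.1 - p.2 ∈ A := h2
      refine ht3 n _ h2' _ h1' ?_
      abel
    rw [this]; simp
  have hpos2 : 0 < ρ.real S := by
    rw [measureReal_def, hρ, Measure.restrict_apply hSm, Set.inter_self]
    exact ENNReal.toReal_pos hne (measure_ne_top _ _)
  obtain ⟨n, hn⟩ := (hρrig (ρ.real S / 2) (by positivity)).exists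
  have h1 := td_set hn hSm
  rw [hzero n, zero_sub, abs_neg, abs_of_pos hpos2] at h1
  linarith

end Pool.Agent.Y239.HM
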